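import Mathlib
import Pool.Agent.H50.SnakeD

set_option autoImplicit false

open Polynomial Set

namespace Pool.Agent.Results.MP_01622d_an.NotExtremal

/-- `ω` is a snake polynomial of degree at most `n` of the majorant `μ` on `[-1,1]`:
`|ω| ≤ μ` on `[-1,1]`, and there are points `1 ≥ τ 0 > τ 1 > ... > τ n ≥ -1` with
`ω (τ i) = (-1)^i μ (τ i)`. -/
def IsSnake (n : ℕ) (μ : ℝ → ℝ) (ω : ℝ[X]) : Prop :=
  ω.natDegree ≤ n ∧ (∀ x ∈ Icc (-1 : ℝ) 1, |ω.eval x| ≤ μ x) ∧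
    ∃ τ : Fin (n + 1) → ℝ, (∀ i, τ i ∈ Icc (-1 : ℝ) 1) ∧ StrictAnti τ ∧
      ∀ i : Fin (n + 1), ω.eval (τ i) = (-1) ^ (i : ℕ) * μ (τ i)

/-- For all `k ≥ 1` and `n ≥ 2 k + 2` there is a polynomial `R`, positive on `[-1,1]`, such that the
snake polynomial `ω` of the (smooth, strictly positive) majorant `μ = √R` is not extremal: some
admissible `p` of degree at most `n` has `|p^(k) (x0)| > max |ω^(k)|`. -/
theorem result (n k : ℕ) (_hk : 1 ≤ k) (hn : 2 * k + 2 ≤ n) :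
    ∃ R : ℝ[X], (∀ x ∈ Icc (-1 : ℝ) 1, 0 < R.eval x) ∧
      ∃ ω p : ℝ[X], IsSnake n (fun x => √(R.eval x)) ω ∧
        p.natDegree ≤ n ∧ (∀ x ∈ Icc (-1 : ℝ) 1, |p.eval x| ≤ √(R.eval x)) ∧
        ∃ x0 ∈ Icc (-1 : ℝ) 1, ∀ x ∈ Icc (-1 : ℝ) 1,
          |(derivative^[k] ω).eval x| < |(derivative^[k] p).eval x0| := by
  obtain ⟨R, ω, p, τ, x0, hx0, hR, hω, hp, h1, h2, hτ, hτa, h3, h4, h5⟩ :=
    Pool.Agent.H50.Snake.main n k hn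
  refine ⟨R, hR, ω, p, ⟨hω, fun x hx => Real.abs_le_sqrt (h1 x hx), τ, hτ, hτa, fun i => ?_⟩, hp,
    fun x hx => Real.abs_le_sqrt (h2 x hx), x0, hx0, h5⟩
  have hs : ((-1 : ℝ) ^ (i : ℕ)) * (-1) ^ (i : ℕ) = 1 := by rw [← mul_pow]; simp
  have h6 : √(R.eval (τ i)) = (-1 : ℝ) ^ (i : ℕ) * ω.eval (τ i) := by
    rw [h3 i, show (ω.eval (τ i)) ^ 2 = ((-1 : ℝ) ^ (i : ℕ) * ω.eval (τ i)) ^ 2 by
      rw [mul_pow, ← pow_mul, mul_comm (i : ℕ) 2, pow_mul]; norm_num]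
    exact Real.sqrt_sq (h4 i).le
  show ω.eval (τ i) = (-1 : ℝ) ^ (i : ℕ) * √(R.eval (τ i))
  rw [h6, ← mul_assoc, hs, one_mul]

end Pool.Agent.Results.MP_01622d_an.NotExtremal
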